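import Mathlib
import Pool.Agent.X238.DW.Stm

/-! Part EXB of the project DW: decay by the energy method. -/

set_option autoImplicit false

namespace Pool.Agent.X295.DW

open MeasureTheory Set Filter Topology

/-- the inequality for the energy -/
lemma energy_ineq {c1 c2 c l ε δ Z R g : ℝ} (hc1 : 0 < c1) (hc : c1 ≤ c) (hc2 : c ≤ c2) (hl : 0 < l)
    (hε : 0 < ε) (h1 : 4 * ε ≤ c1) (h2 : 8 * c2 ^ 2 * ε ≤ c1 * l) (h3 : 4 * ε ^ 2 ≤ l) (hδ0 : 0 ≤ δ)
    (hδ : 2 * δ ≤ ε) :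
    (2 * R * (-(c * R) - l * Z + g) + 2 * l * Z * R + 2 * ε * R ^ 2 + 2 * ε * Z * (-(c * R) - l * Z + g)) +
      δ * (R ^ 2 + l * Z ^ 2 + 2 * ε * Z * R) ≤ (2 / c1 + 2 * ε / l) * g ^ 2 := by
  have hc0 : 0 < c := hc1.trans_le hc
  -- cross terms
  have e1 : 2 * R * g ≤ c1 / 2 * R ^ 2 + 2 / c1 * g ^ 2 := by
    have : 0 ≤ (c1 * R - 2 * g) ^ 2 / (2 * c1) := by positivity
    have h : (c1 * R - 2 * g) ^ 2 / (2 * c1) = c1 / 2 * R ^ 2 + 2 / c1 * g ^ 2 - 2 * R * g := by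
      field_simp
      ring
    linarith
  have e2 : 2 * ε * Z * g ≤ ε * l / 2 * Z ^ 2 + 2 * ε / l * g ^ 2 := by
    have : 0 ≤ ε * (l * Z - 2 * g) ^ 2 / (2 * l) := by positivity
    have h : ε * (l * Z - 2 * g) ^ 2 / (2 * l) = ε * l / 2 * Z ^ 2 + 2 * ε / l * g ^ 2 - 2 * ε * Z * g := by
      field_simp
      ring
    linarith
  have e3 : -(2 * ε * c * Z * R) ≤ ε * l / 2 * Z ^ 2 + c1 / 4 * R ^ 2 := by
    have h4 : 0 ≤ ε * (l * Z + 2 * c * R) ^ 2 / (2 * l) := by positivity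
    have h5 : ε * (l * Z + 2 * c * R) ^ 2 / (2 * l) =
        ε * l / 2 * Z ^ 2 + 2 * ε * c ^ 2 / l * R ^ 2 + 2 * ε * c * Z * R := by
      field_simp
      ring
    have h6 : 2 * ε * c ^ 2 / l ≤ c1 / 4 := by
      rw [div_le_iff₀ hl]
      have : c ^ 2 ≤ c2 ^ 2 := pow_le_pow_left₀ hc0.le hc2 2
      nlinarith
    have h7 : 2 * ε * c ^ 2 / l * R ^ 2 ≤ c1 / 4 * R ^ 2 := mul_le_mul_of_nonneg_right h6 (sq_nonneg _)
    linarith
  have e4 : 2 * ε * Z * R ≤ 1 / 2 * R ^ 2 + l / 2 * Z ^ 2 := by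
    have h4 : 0 ≤ (R - 2 * ε * Z) ^ 2 := sq_nonneg _
    have h5 : 4 * ε ^ 2 * Z ^ 2 ≤ l * Z ^ 2 := mul_le_mul_of_nonneg_right h3 (sq_nonneg _)
    nlinarith
  have e5 : δ * (R ^ 2 + l * Z ^ 2 + 2 * ε * Z * R) ≤ ε / 2 * (3 / 2 * R ^ 2 + 3 / 2 * (l * Z ^ 2)) := by
    have h4 : R ^ 2 + l * Z ^ 2 + 2 * ε * Z * R ≤ 3 / 2 * R ^ 2 + 3 / 2 * (l * Z ^ 2) := by linarith
    have h5 : 0 ≤ 3 / 2 * R ^ 2 + 3 / 2 * (l * Z ^ 2) := by positivity
    calc δ * (R ^ 2 + l * Z ^ 2 + 2 * ε * Z * R) ≤ δ * (3 / 2 * R ^ 2 + 3 / 2 * (l * Z ^ 2)) :=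
          mul_le_mul_of_nonneg_left h4 hδ0
      _ ≤ ε / 2 * (3 / 2 * R ^ 2 + 3 / 2 * (l * Z ^ 2)) := mul_le_mul_of_nonneg_right (by linarith) h5
  have e6 : -(2 * c * R ^ 2) ≤ -(2 * c1 * R ^ 2) := by nlinarith [sq_nonneg R]
  have e7 : ε * R ^ 2 ≤ c1 / 4 * R ^ 2 := mul_le_mul_of_nonneg_right (by linarith) (sq_nonneg _)
  have e8 : 0 ≤ c1 * R ^ 2 := by positivity
  have e9 : 0 ≤ ε * (l * Z ^ 2) := by positivity
  have e10 : (2 / c1 + 2 * ε / l) * g ^ 2 = 2 / c1 * g ^ 2 + 2 * ε / l * g ^ 2 := by ring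
  rw [e10]
  nlinarith

/-- **EXB** -/
theorem t_EXB : Pool.Agent.X238.DW.S_EXB := by
  intro c1 c2 l hc1 hc12 hl
  have hc2 : 0 < c2 := hc1.trans_le hc12
  obtain ⟨ε, hε, h1, h2, h3, h31⟩ : ∃ ε : ℝ, 0 < ε ∧ 4 * ε ≤ c1 ∧ 8 * c2 ^ 2 * ε ≤ c1 * l ∧ 4 * ε ≤ l ∧ ε ≤ 1 := by
    refine ⟨min (min (c1 / 4) (c1 * l / (8 * c2 ^ 2))) (min (l / 4) 1), ?_, ?_, ?_, ?_, ?_⟩
    · positivity
    · have : min (min (c1 / 4) (c1 * l / (8 * c2 ^ 2))) (min (l / 4) 1) ≤ c1 / 4 :=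
        (min_le_left _ _).trans (min_le_left _ _)
      linarith
    · have : min (min (c1 / 4) (c1 * l / (8 * c2 ^ 2))) (min (l / 4) 1) ≤ c1 * l / (8 * c2 ^ 2) :=
        (min_le_left _ _).trans (min_le_right _ _)
      rw [le_div_iff₀ (by positivity)] at this
      linarith
    · have : min (min (c1 / 4) (c1 * l / (8 * c2 ^ 2))) (min (l / 4) 1) ≤ l / 4 :=
        (min_le_right _ _).trans (min_le_left _ _)
      linarith
    · exact (min_le_right _ _).trans (min_le_right _ _)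
  have h32 : 4 * ε ^ 2 ≤ l := by nlinarith
  refine ⟨ε / 2, by positivity, ?_⟩
  intro γ hγ hγ0
  set K : ℝ := 2 / c1 + 2 * ε / l with hK
  have hK0 : 0 < K := by positivity
  set A : ℝ := 3 / 2 * (1 + l) + K / γ with hA
  have hA0 : 0 < A := by positivity
  set C : ℝ := 2 * A + 2 * A / l + 1 with hC
  have hC1 : 1 ≤ C := by
    have : 0 ≤ 2 * A + 2 * A / l := by positivity
    linarith
  refine ⟨C, by linarith, ?_⟩
  intro c hc Z R g m hm hZ hR hg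
  set E : ℝ → ℝ := fun s => R s ^ 2 + l * Z s ^ 2 + 2 * ε * Z s * R s with hE
  have hElow : ∀ s, 1 / 2 * (R s ^ 2 + l * Z s ^ 2) ≤ E s := by
    intro s
    rw [hE]
    dsimp only
    have h4 : 0 ≤ (R s + 2 * ε * Z s) ^ 2 := sq_nonneg _
    have h5 : 4 * ε ^ 2 * Z s ^ 2 ≤ l * Z s ^ 2 := mul_le_mul_of_nonneg_right h32 (sq_nonneg _)
    nlinarith
  have hEup : ∀ s, E s ≤ 3 / 2 * (R s ^ 2 + l * Z s ^ 2) := by
    intro s
    rw [hE]
    dsimp only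
    have h4 : 0 ≤ (R s - 2 * ε * Z s) ^ 2 := sq_nonneg _
    have h5 : 4 * ε ^ 2 * Z s ^ 2 ≤ l * Z s ^ 2 := mul_le_mul_of_nonneg_right h32 (sq_nonneg _)
    nlinarith
  set E' : ℝ → ℝ := fun s => 2 * R s * (-(c * R s) - l * Z s + g s) + 2 * l * Z s * R s + 2 * ε * R s ^ 2 +
    2 * ε * Z s * (-(c * R s) - l * Z s + g s) with hE'
  have hder : ∀ s : ℝ, 0 ≤ s → HasDerivAt E (E' s) s := by
    intro s hs
    have h4 := ((hR s hs).pow 2).add (((hZ s hs).pow 2).const_mul l)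
    have h5 := h4.add (((hZ s hs).const_mul (2 * ε)).mul (hR s hs))
    refine h5.congr_deriv ?_
    rw [hE']
    simp only [Nat.cast_ofNat, Nat.add_one_sub_one, pow_one]
    ring
  set F : ℝ → ℝ := fun s => Real.exp (γ * s) * E s + K * m ^ 2 / γ * Real.exp (-(γ * s)) with hF
  have hFder : ∀ s : ℝ, 0 ≤ s → HasDerivAt F (Real.exp (γ * s) * (E' s + γ * E s) -
      K * m ^ 2 * Real.exp (-(γ * s))) s := by
    intro s hs
    have h4 : HasDerivAt (fun s : ℝ => Real.exp (γ * s)) (Real.exp (γ * s) * (γ * 1)) s :=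
      ((hasDerivAt_id s).const_mul γ).exp
    have h5 : HasDerivAt (fun s : ℝ => Real.exp (-(γ * s))) (Real.exp (-(γ * s)) * (-(γ * 1))) s :=
      ((hasDerivAt_id s).const_mul γ).neg.exp
    have h6 := (h4.mul (hder s hs)).add (h5.const_mul (K * m ^ 2 / γ))
    refine h6.congr_deriv ?_
    field_simp
    ring
  have hanti : AntitoneOn F (Ici 0) := by
    apply antitoneOn_of_deriv_nonpos (convex_Ici 0)
    · exact fun s hs => (hFder s hs).continuousAt.continuousWithinAt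
    · intro s hs
      rw [interior_Ici] at hs
      exact (hFder s (le_of_lt hs)).differentiableAt.differentiableWithinAt
    · intro s hs
      rw [interior_Ici] at hs
      have hs0 : (0 : ℝ) ≤ s := le_of_lt hs
      rw [(hFder s hs0).deriv]
      have h4 : E' s + γ * E s ≤ K * g s ^ 2 :=
        energy_ineq hc1 hc.1 hc.2 hl hε h1 h2 h32 hγ.le (by linarith)
      have h5 : g s ^ 2 ≤ m ^ 2 * Real.exp (-(γ * s)) ^ 2 := by
        rw [← mul_pow, ← sq_abs (g s)]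
        exact pow_le_pow_left₀ (abs_nonneg _) (hg s hs0) 2
      have h6 : Real.exp (γ * s) * Real.exp (-(γ * s)) = 1 := by rw [← Real.exp_add]; simp
      have h7 : Real.exp (γ * s) * (E' s + γ * E s) ≤ K * m ^ 2 * Real.exp (-(γ * s)) := by
        calc Real.exp (γ * s) * (E' s + γ * E s) ≤ Real.exp (γ * s) * (K * (m ^ 2 * Real.exp (-(γ * s)) ^ 2)) :=
              mul_le_mul_of_nonneg_left (h4.trans (mul_le_mul_of_nonneg_left h5 hK0.le)) (Real.exp_pos _).le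
          _ = K * m ^ 2 * Real.exp (-(γ * s)) * (Real.exp (γ * s) * Real.exp (-(γ * s))) := by ring
          _ = _ := by rw [h6, mul_one]
      linarith
  set N : ℝ := |Z 0| + |R 0| + m with hN
  have hN0 : 0 ≤ N := by positivity
  have hmain : ∀ s : ℝ, 0 ≤ s → R s ^ 2 + l * Z s ^ 2 ≤ 2 * A * N ^ 2 * Real.exp (-(γ * s)) := by
    intro s hs
    have h4 := hanti (mem_Ici.2 le_rfl) (mem_Ici.2 hs) hs
    have h5 : F 0 ≤ A * N ^ 2 := by
      have h6 : F 0 = E 0 + K / γ * m ^ 2 := by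
        rw [hF]
        dsimp only
        rw [mul_zero, neg_zero, Real.exp_zero]
        ring
      rw [h6]
      have h7 := hEup 0
      have hZN : Z 0 ^ 2 ≤ N ^ 2 := by
        rw [← sq_abs]
        exact pow_le_pow_left₀ (abs_nonneg _) (by rw [hN]; linarith [abs_nonneg (R 0)]) 2
      have hRN : R 0 ^ 2 ≤ N ^ 2 := by
        rw [← sq_abs]
        exact pow_le_pow_left₀ (abs_nonneg _) (by rw [hN]; linarith [abs_nonneg (Z 0)]) 2
      have hmN : m ^ 2 ≤ N ^ 2 :=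
        pow_le_pow_left₀ hm (by rw [hN]; linarith [abs_nonneg (Z 0), abs_nonneg (R 0)]) 2
      have h8 : l * Z 0 ^ 2 ≤ l * N ^ 2 := mul_le_mul_of_nonneg_left hZN hl.le
      have h9 : K / γ * m ^ 2 ≤ K / γ * N ^ 2 := mul_le_mul_of_nonneg_left hmN (by positivity)
      rw [hA]
      nlinarith
    have h6 : Real.exp (γ * s) * E s ≤ F s := by
      rw [hF]
      dsimp only
      have : 0 ≤ K * m ^ 2 / γ * Real.exp (-(γ * s)) := by positivity
      linarith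
    have h7 : Real.exp (γ * s) * E s ≤ A * N ^ 2 := h6.trans (h4.trans h5)
    have h8 : E s ≤ A * N ^ 2 * Real.exp (-(γ * s)) := by
      rw [Real.exp_neg, ← div_eq_mul_inv, le_div_iff₀ (Real.exp_pos _), mul_comm]
      exact h7
    have h9 := hElow s
    linarith
  intro s hs
  have h4 := hmain s hs
  have hexp : Real.exp (-(γ / 2 * s)) ^ 2 = Real.exp (-(γ * s)) := by
    rw [← Real.exp_nat_mul]
    congr 1
    push_cast
    ring
  have hpos : 0 ≤ C * N * Real.exp (-(γ / 2 * s)) := by positivity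
  have hsq : (C * N * Real.exp (-(γ / 2 * s))) ^ 2 = C ^ 2 * N ^ 2 * Real.exp (-(γ * s)) := by
    rw [mul_pow, mul_pow, hexp]
  have hX : 0 ≤ N ^ 2 * Real.exp (-(γ * s)) := by positivity
  have hC2 : C ≤ C ^ 2 := by nlinarith
  have hAC : 2 * A ≤ C ^ 2 := by
    have : 0 ≤ 2 * A / l := by positivity
    linarith
  have hAC' : 2 * A / l ≤ C ^ 2 := by linarith
  constructor
  · apply abs_le_of_sq_le_sq _ hpos
    rw [hsq]
    have h5 : Z s ^ 2 ≤ 2 * A / l * (N ^ 2 * Real.exp (-(γ * s))) := by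
      rw [div_mul_eq_mul_div, le_div_iff₀ hl]
      nlinarith [sq_nonneg (R s)]
    calc Z s ^ 2 ≤ 2 * A / l * (N ^ 2 * Real.exp (-(γ * s))) := h5
      _ ≤ C ^ 2 * (N ^ 2 * Real.exp (-(γ * s))) := mul_le_mul_of_nonneg_right hAC' hX
      _ = _ := by ring
  · apply abs_le_of_sq_le_sq _ hpos
    rw [hsq]
    have h5 : R s ^ 2 ≤ 2 * A * (N ^ 2 * Real.exp (-(γ * s))) := by
      have : 0 ≤ l * Z s ^ 2 := by positivity
      linarith
    calc R s ^ 2 ≤ 2 * A * (N ^ 2 * Real.exp (-(γ * s))) := h5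
      _ ≤ C ^ 2 * (N ^ 2 * Real.exp (-(γ * s))) := mul_le_mul_of_nonneg_right hAC hX
      _ = _ := by ring

end Pool.Agent.X295.DW
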